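import Mathlib

/-! Graphs given by a parent map are trees, and the level is the distance to the root. -/

namespace Pool.Agent.Lib.MP_32e6ae_pr

/-- A parent map with levels. -/
structure ParentMap (V : Type*) where
  o : V
  par : V → V
  lev : V → ℕ
  lev_o : lev o = 0
  lev_par : ∀ v, v ≠ o → lev (par v) + 1 = lev v

namespace ParentMap

variable {V : Type*} (P : ParentMap V)

/-- The graph joining every non-root vertex to its parent. -/
def graph : SimpleGraph V where
  Adj u v := (u ≠ P.o ∧ P.par u = v) ∨ (v ≠ P.o ∧ P.par v = u)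
  symm := ⟨by
    intro u v h
    exact h.symm⟩
  loopless := ⟨by
    rintro u (⟨h1, h2⟩ | ⟨h1, h2⟩)
    · have := P.lev_par u h1
      rw [h2] at this
      omega
    · have := P.lev_par u h1
      rw [h2] at this
      omega⟩

lemma graph_adj {u v : V} :
    P.graph.Adj u v ↔ (u ≠ P.o ∧ P.par u = v) ∨ (v ≠ P.o ∧ P.par v = u) := Iff.rfl

lemma lev_of_adj {u v : V} (h : P.graph.Adj u v) : P.lev v ≤ P.lev u + 1 := by
  rcases h with ⟨h1, h2⟩ | ⟨h1, h2⟩
  · have := P.lev_par u h1
    rw [h2] at this
    omega
  · have := P.lev_par v h1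
    rw [h2] at this
    omega

lemma lev_eq_zero {v : V} (h : P.lev v = 0) : v = P.o := by
  by_contra hv
  have := P.lev_par v hv
  omega

lemma exists_walk (n : ℕ) : ∀ v, P.lev v = n → ∃ w : P.graph.Walk P.o v, w.length = n := by
  induction n with
  | zero =>
    intro v hv
    obtain rfl := P.lev_eq_zero hv
    exact ⟨SimpleGraph.Walk.nil, rfl⟩
  | succ n ih =>
    intro v hv
    have hvo : v ≠ P.o := by
      rintro rfl
      rw [P.lev_o] at hv
      omega
    have := P.lev_par v hvo
    obtain ⟨w, hw⟩ := ih (P.par v) (by omega)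
    have hadj : P.graph.Adj (P.par v) v := Or.inr ⟨hvo, rfl⟩
    exact ⟨w.concat hadj, by rw [SimpleGraph.Walk.length_concat, hw]⟩

lemma connected : P.graph.Connected := by
  rw [SimpleGraph.connected_iff]
  refine ⟨?_, ⟨P.o⟩⟩
  intro u v
  obtain ⟨w1, _⟩ := P.exists_walk _ u rfl
  obtain ⟨w2, _⟩ := P.exists_walk _ v rfl
  exact ⟨w1.reverse.append w2⟩

lemma lev_le_walk {u v : V} (w : P.graph.Walk u v) : P.lev v ≤ P.lev u + w.length := by
  induction w with
  | nil => simp
  | cons h w ih =>
    have := P.lev_of_adj h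
    rw [SimpleGraph.Walk.length_cons]
    omega

lemma dist_eq (v : V) : P.graph.dist P.o v = P.lev v := by
  refine le_antisymm ?_ ?_
  · obtain ⟨w, hw⟩ := P.exists_walk _ v rfl
    rw [← hw]
    exact SimpleGraph.dist_le w
  · obtain ⟨w, hw⟩ := (P.connected.preconnected P.o v).exists_walk_length_eq_dist
    have := P.lev_le_walk w
    rw [P.lev_o] at this
    omega

lemma isBridge {v : V} (hv : v ≠ P.o) : P.graph.IsBridge s(v, P.par v) := by
  rw [SimpleGraph.isBridge_iff]
  rintro hreach
  have key : ∀ x y, (P.graph \ SimpleGraph.fromEdgeSet {s(v, P.par v)}).Reachable x y →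
      (∃ k, P.par^[k] x = v ∧ k + P.lev v ≤ P.lev x) →
      (∃ k, P.par^[k] y = v ∧ k + P.lev v ≤ P.lev y) := by
    rintro x y ⟨w⟩
    induction w with
    | nil => exact id
    | @cons a b c hab w ih =>
      rintro ⟨k, hk, hk'⟩
      refine ih ?_
      rw [SimpleGraph.sdiff_adj, SimpleGraph.fromEdgeSet_adj] at hab
      obtain ⟨hab, hne⟩ := hab
      rcases hab with ⟨h1, h2⟩ | ⟨h1, h2⟩
      · cases k with
        | zero =>
          exfalso
          apply hne
          simp only [Function.iterate_zero, id] at hk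
          subst hk
          subst h2
          refine ⟨rfl, ?_⟩
          intro h3
          have := P.lev_par a h1
          rw [← h3] at this
          omega
        | succ k =>
          refine ⟨k, ?_, ?_⟩
          · rw [← h2]
            exact hk
          · have := P.lev_par a h1
            rw [h2] at this
            omega
      · refine ⟨k + 1, ?_, ?_⟩
        · rw [Function.iterate_succ, Function.comp, h2]
          exact hk
        · have := P.lev_par b h1
          rw [h2] at this
          omega
  obtain ⟨k, hk, hk'⟩ := key _ _ hreach ⟨0, rfl, by omega⟩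
  have := P.lev_par v hv
  omega

theorem isTree : P.graph.IsTree := by
  refine ⟨P.connected, ?_⟩
  rw [SimpleGraph.isAcyclic_iff_forall_adj_isBridge]
  rintro u v (⟨h1, rfl⟩ | ⟨h1, rfl⟩)
  · exact P.isBridge h1
  · rw [Sym2.eq_swap]
    exact P.isBridge h1

end ParentMap

end Pool.Agent.Lib.MP_32e6ae_pr
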