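import Pool.Agent.Lib.MP_32e6ae_pr.Srw
import Pool.Agent.Lib.MP_32e6ae_pr.Tree

/-! The binary tree with one half-line attached to the root, and simple random walk on it. -/

open MeasureTheory ProbabilityTheory Filter
open scoped ENNReal NNReal

namespace Pool.Agent.Lib.MP_32e6ae_pr

/-- Vertices: the vertices of the binary tree are words, `ray j` is the vertex at distance `j + 1`
from the root on the half-line. -/
inductive Vx : Type
  | tree (w : List Bool) : Vx
  | ray (j : ℕ) : Vx
  deriving DecidableEq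

namespace Vx

instance : MeasurableSpace Vx := ⊤

instance : Countable Vx := by
  have : Function.Injective (fun v : Vx => match v with
    | tree w => (Sum.inl w : List Bool ⊕ ℕ)
    | ray j => Sum.inr j) := by
    intro a b h
    cases a <;> cases b <;> simp_all
  exact this.countable

instance : MeasurableSingletonClass Vx := ⟨fun _ => trivial⟩

/-- The parent map. -/
def pm : ParentMap Vx where
  o := tree []
  par
    | tree [] => tree []
    | tree (_ :: w) => tree w
    | ray 0 => tree []
    | ray (j + 1) => ray j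
  lev
    | tree w => w.length
    | ray j => j + 1
  lev_o := rfl
  lev_par := by
    rintro ((_ | ⟨b, w⟩) | (_ | j)) h
    · exact absurd rfl h
    · rfl
    · rfl
    · rfl

/-- The tree. -/
abbrev G : SimpleGraph Vx := pm.graph

/-- The root. -/
abbrev o : Vx := tree []

/-- Neighbourhoods. -/
def nb : Vx → Finset Vx
  | tree [] => {ray 0, tree [false], tree [true]}
  | tree (b :: w) => {tree w, tree (false :: b :: w), tree (true :: b :: w)}
  | ray 0 => {tree [], ray 1}
  | ray (j + 1) => {ray j, ray (j + 2)}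

lemma isNb : IsNb G nb where
  coe := by
    rintro ((_ | ⟨b, w⟩) | (_ | j)) <;> ext ((_ | ⟨b', w'⟩) | (_ | j')) <;>
      simp [nb, SimpleGraph.mem_neighborSet, ParentMap.graph_adj, pm] <;> try tauto
    · cases b' <;> simp
    · cases b' <;> simp [eq_comm]
  ne := by
    rintro ((_ | ⟨b, w⟩) | (_ | j)) <;> simp [nb]

lemma encard_le (v : Vx) : (G.neighborSet v).encard ≤ 3 := by
  rw [← isNb.coe v, Set.encard_coe_eq_coe_finsetCard]
  have : (nb v).card ≤ 3 := by
    rcases v with ((_ | ⟨b, w⟩) | (_ | j))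
    · exact Finset.card_le_three
    · exact Finset.card_le_three
    · exact Finset.card_le_two.trans (by norm_num)
    · exact Finset.card_le_two.trans (by norm_num)
  exact_mod_cast this

/-! ### Averages over neighbourhoods -/

lemma avg_root (F : Vx → ℝ) : ((nb o).card : ℝ)⁻¹ * ∑ w ∈ nb o, F w =
    (F (ray 0) + F (tree [false]) + F (tree [true])) / 3 := by
  simp [nb]
  ring

lemma avg_tree (F : Vx → ℝ) (b : Bool) (w : List Bool) :
    ((nb (tree (b :: w))).card : ℝ)⁻¹ * ∑ x ∈ nb (tree (b :: w)), F x =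
    (F (tree w) + F (tree (false :: b :: w)) + F (tree (true :: b :: w))) / 3 := by
  have h1 : tree w ≠ tree (false :: b :: w) := by
    intro h
    have := congrArg pm.lev h
    simp [pm] at this
    omega
  have h2 : tree w ≠ tree (true :: b :: w) := by
    intro h
    have := congrArg pm.lev h
    simp [pm] at this
    omega
  have h3 : tree (false :: b :: w) ≠ tree (true :: b :: w) := by simp
  have hc : (nb (tree (b :: w))).card = 3 := Finset.card_eq_three.2 ⟨_, _, _, h1, h2, h3, rfl⟩
  rw [hc, nb, Finset.sum_insert (by simp [h1, h2]), Finset.sum_insert (by simp [h3]),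
    Finset.sum_singleton]
  push_cast
  ring

lemma avg_ray_zero (F : Vx → ℝ) : ((nb (ray 0)).card : ℝ)⁻¹ * ∑ w ∈ nb (ray 0), F w =
    (F o + F (ray 1)) / 2 := by
  simp [nb]
  ring

lemma avg_ray_succ (F : Vx → ℝ) (j : ℕ) :
    ((nb (ray (j + 1))).card : ℝ)⁻¹ * ∑ w ∈ nb (ray (j + 1)), F w =
    (F (ray j) + F (ray (j + 2))) / 2 := by
  have h1 : ray j ≠ ray (j + 2) := by simp
  rw [nb, Finset.card_pair h1, Finset.sum_pair h1]
  push_cast
  ring

/-! ### Simple random walk -/

lemma ae_eventually_ne_root (v : Vx) : ∀ᵐ X ∂srw G v, ∀ᶠ n in atTop, X n ≠ o := by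
  let F : Vx → ℝ := fun v => match v with
    | tree w => 3 * (1 / 2 : ℝ) ^ w.length
    | ray _ => 3
  refine ae_finite_visits isNb o F ?_ ?_ v
  · rintro (w | j)
    · simp only [F]; positivity
    · simp only [F]; norm_num
  · rintro ((_ | ⟨b, w⟩) | (_ | j))
    · rw [avg_root, Set.indicator_of_mem (by simp)]
      simp only [F, List.length_cons, List.length_nil]
      norm_num
    · rw [avg_tree, Set.indicator_of_notMem (by simp)]
      simp only [F, List.length_cons]
      rw [pow_succ, pow_succ]
      ring_nf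
      exact le_rfl
    · rw [avg_ray_zero, Set.indicator_of_notMem (by simp)]
      simp only [F, List.length_nil]
      norm_num
    · rw [avg_ray_succ, Set.indicator_of_notMem (by simp)]
      simp only [F]
      norm_num

/-- The walk does not stay on the half-line forever. -/
lemma ae_exists_not_ray (v : Vx) : ∀ᵐ X ∂srw G v, ∃ n, ∀ j, X n ≠ ray j := by
  let A : Set (ℕ → Vx) := {X | ∀ n, ∃ j, X n = ray j}
  have hzero : ∀ w, (srw G (tree w)).real A = 0 := by
    intro w
    have : ∀ᵐ X ∂srw G (tree w), ¬ (∀ n, ∃ j, X n = ray j) := by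
      filter_upwards [ae_zero isNb (tree w)] with X hX hX'
      obtain ⟨j, hj⟩ := hX' 0
      rw [hX] at hj
      exact absurd hj (by simp)
    rw [ae_iff] at this
    simp only [not_not] at this
    rw [measureReal_def, this]
    simp
  have hpre : ∀ j, cons (ray j) ⁻¹' A = A := by
    intro j
    ext X
    constructor
    · intro h n
      exact h (n + 1)
    · intro h n
      cases n with
      | zero => exact ⟨j, rfl⟩
      | succ n => exact h n
  let q : ℕ → ℝ := fun j => (srw G (ray j)).real A
  have h0 : q 0 = q 1 / 2 := by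
    change (srw G (ray 0)).real A = _
    rw [real_srw isNb, hpre, avg_ray_zero (fun w => (srw G w).real A), hzero]
    ring
  have hs : ∀ j, q (j + 1) = (q j + q (j + 2)) / 2 := by
    intro j
    change (srw G (ray (j + 1))).real A = _
    rw [real_srw isNb, hpre, avg_ray_succ (fun w => (srw G w).real A)]
  have hlin : ∀ j : ℕ, q j = (j + 1) * q 0 ∧ q (j + 1) = (j + 2) * q 0 := by
    intro j
    induction j with
    | zero =>
      constructor
      · simp
      · have := h0
        push_cast
        linarith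
    | succ j ih =>
      refine ⟨?_, ?_⟩
      · rw [ih.2]; push_cast; ring
      · have := hs j
        rw [ih.1, ih.2] at this
        push_cast
        have h2 : q (j + 2) = 2 * ((j + 2) * q 0) - (j + 1) * q 0 := by linarith
        rw [show j + 1 + 1 = j + 2 from rfl, h2]
        ring
  have hq0 : q 0 = 0 := by
    by_contra hne
    have hpos : 0 < q 0 := lt_of_le_of_ne measureReal_nonneg (Ne.symm hne)
    obtain ⟨n, hn⟩ := exists_nat_gt (1 / q 0)
    have h1 : q n ≤ 1 := measureReal_le_one
    rw [(hlin n).1] at h1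
    rw [div_lt_iff₀ hpos] at hn
    nlinarith
  have hall : ∀ v, (srw G v).real A = 0 := by
    rintro (w | j)
    · exact hzero w
    · have := (hlin j).1
      rw [hq0, mul_zero] at this
      exact this
  have : srw G v A = 0 := by
    have h := hall v
    rw [measureReal_def, ENNReal.toReal_eq_zero_iff] at h
    rcases h with h | h
    · exact h
    · exact absurd h (measure_ne_top _ _)
  rw [ae_iff]
  refine measure_mono_null ?_ this
  intro X hX n
  by_contra h
  apply hX
  refine ⟨n, fun j hj => h ⟨j, hj⟩⟩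

/-- Neighbours of half-line vertices, neighbours of non-root vertices of the binary tree. -/
lemma adj_ray {j : ℕ} {v : Vx} (h : G.Adj (ray j) v) : v = o ∨ v = ray (j + 1) ∨
    ∃ i, v = ray i ∧ i + 1 = j := by
  have : v ∈ (nb (ray j) : Set Vx) := by rw [isNb.coe]; exact h
  cases j with
  | zero =>
    simp [nb] at this
    rcases this with rfl | rfl
    · exact Or.inl rfl
    · exact Or.inr (Or.inl rfl)
  | succ j =>
    simp [nb] at this
    rcases this with rfl | rfl
    · exact Or.inr (Or.inr ⟨j, rfl, rfl⟩)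
    · exact Or.inr (Or.inl rfl)

lemma adj_ray_tree {j : ℕ} {w : List Bool} (h : G.Adj (tree w) (ray j)) : w = [] ∧ j = 0 := by
  rcases adj_ray h.symm with h' | h' | ⟨i, h', _⟩
  · have hw : w = [] := by simpa using h'
    subst hw
    have : (ray j) ∈ (nb (tree []) : Set Vx) := by rw [isNb.coe]; exact h
    exact ⟨rfl, by simpa [nb] using this⟩
  · simp at h'
  · simp at h'

/-- Almost surely the walk is eventually in the binary tree minus its root. -/
lemma ae_eventually_tree (v : Vx) : ∀ᵐ X ∂srw G v, ∃ m, ∀ k, ∃ w, w ≠ [] ∧ X (m + k) = tree w := by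
  have h1 : ∀ᵐ X ∂srw G v, ∀ m, ∃ n, ∀ j, X (m + n) ≠ ray j := by
    rw [ae_all_iff]
    intro m
    exact ae_shift isNb ae_exists_not_ray v m
  filter_upwards [ae_eventually_ne_root v, h1, ae_adj isNb v] with X hX1 hX2 hX3
  obtain ⟨m, hm⟩ := eventually_atTop.1 hX1
  obtain ⟨n, hn⟩ := hX2 m
  refine ⟨m + n, fun k => ?_⟩
  induction k with
  | zero =>
    have h1 := hm (m + n) (by omega)
    rcases hw : X (m + n) with (w | j)
    · refine ⟨w, ?_, rfl⟩
      rintro rfl
      exact h1 hw
    · exact absurd hw (hn j)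
  | succ k ih =>
    obtain ⟨w, hw, hw'⟩ := ih
    have h1 := hm (m + n + (k + 1)) (by omega)
    have h2 := hX3 (m + n + k)
    rw [hw'] at h2
    have e : m + n + (k + 1) = m + n + k + 1 := by omega
    rw [e] at h1
    rw [e]
    rcases hw2 : X (m + n + k + 1) with (w2 | j)
    · refine ⟨w2, ?_, rfl⟩
      rintro rfl
      exact h1 hw2
    · rw [hw2] at h2
      exact absurd (adj_ray_tree h2).1 hw

/-- The vertices of the binary tree other than the root. -/
def S : Set Vx := {v | ∃ w, w ≠ [] ∧ v = tree w}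

lemma tree_cons_mem (b : Bool) (w : List Bool) : tree (b :: w) ∈ S := ⟨_, by simp, rfl⟩

/-- On the event that the walk stays in `S` forever, its speed is at least `1/10`. -/
lemma ae_speed_of_mem (v : Vx) : ∀ᵐ X ∂srw G v, (∀ k, X k ∈ S) →
    ∀ᶠ n : ℕ in atTop, (n : ℝ) / 10 ≤ pm.lev (X n) := by
  let h : Vx → ℝ := fun v => (2 / 3 : ℝ) ^ pm.lev v
  have h0 : ∀ v, 0 ≤ h v := fun v => by simp only [h]; positivity
  have hh : ∀ v ∈ S, ((nb v).card : ℝ)⁻¹ * ∑ w ∈ nb v, S.indicator h w ≤ 17 / 18 * h v := by
    rintro _ ⟨w, hw, rfl⟩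
    obtain ⟨b, w, rfl⟩ := List.exists_cons_of_ne_nil hw
    rw [avg_tree, Set.indicator_of_mem (tree_cons_mem _ _), Set.indicator_of_mem
      (tree_cons_mem _ _)]
    have h1 : S.indicator h (tree w) ≤ h (tree w) :=
      Set.indicator_le_self' (fun v _ => h0 v) _
    have e1 : h (tree w) = (2 / 3 : ℝ) ^ w.length := rfl
    have e2 : ∀ c, h (tree (c :: b :: w)) = (2 / 3 : ℝ) ^ w.length * (2 / 3) * (2 / 3) := by
      intro c
      simp only [h, pm, List.length_cons, pow_succ]
    have e3 : h (tree (b :: w)) = (2 / 3 : ℝ) ^ w.length * (2 / 3) := by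
      simp only [h, pm, List.length_cons, pow_succ]
    rw [e2, e2, e3]
    rw [e1] at h1
    have : (0 : ℝ) < (2 / 3 : ℝ) ^ w.length := by positivity
    nlinarith
  -- the bad events
  let B : ℕ → Set (ℕ → Vx) := fun n =>
    {X | (∀ k ≤ n, X k ∈ S) ∧ (2 / 3 : ℝ) ^ (n / 10) ≤ h (X n)}
  by_cases hv : v ∈ S
  swap
  · filter_upwards [ae_zero isNb v] with X hX hX'
    have := hX' 0
    rw [hX] at this
    exact absurd this hv
  have hB : ∀ n, (srw G v).real (B n) ≤ (357 / 360 : ℝ) ^ n * h v := by
    intro n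
    have := contraction_bound isNb S h (17 / 18) (by norm_num) h0 hh ((2 / 3 : ℝ) ^ (n / 10))
      (by positivity) n v hv
    refine this.trans ?_
    rw [div_eq_mul_inv, ← inv_pow]
    have h2 : ((2 / 3 : ℝ)⁻¹) ^ (n / 10) ≤ (21 / 20 : ℝ) ^ n := by
      calc ((2 / 3 : ℝ)⁻¹) ^ (n / 10) ≤ ((21 / 20 : ℝ) ^ 10) ^ (n / 10) := by
            gcongr
            norm_num
        _ = (21 / 20 : ℝ) ^ (10 * (n / 10)) := by rw [pow_mul]
        _ ≤ (21 / 20 : ℝ) ^ n := by
            apply pow_le_pow_right₀ (by norm_num)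
            omega
    have h3 := h0 v
    calc (17 / 18 : ℝ) ^ n * h v * (2 / 3 : ℝ)⁻¹ ^ (n / 10)
        ≤ (17 / 18 : ℝ) ^ n * h v * (21 / 20 : ℝ) ^ n := by gcongr
      _ = ((17 / 18) * (21 / 20) : ℝ) ^ n * h v := by rw [mul_pow]; ring
      _ = (357 / 360 : ℝ) ^ n * h v := by norm_num
  have hfin : ∑' n, srw G v (B n) ≠ ⊤ := by
    have h1 : ∀ n, srw G v (B n) = ENNReal.ofReal ((srw G v).real (B n)) := by
      intro n
      rw [ofReal_measureReal]
    simp_rw [h1]
    have hs : Summable fun n => (srw G v).real (B n) := by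
      refine Summable.of_nonneg_of_le (fun n => measureReal_nonneg) hB ?_
      exact (summable_geometric_of_lt_one (by norm_num) (by norm_num)).mul_right _
    rw [← ENNReal.ofReal_tsum_of_nonneg (fun n => measureReal_nonneg) hs]
    exact ENNReal.ofReal_ne_top
  filter_upwards [ae_eventually_notMem hfin] with X hX hXS
  filter_upwards [hX] with n hn
  have hn' : ¬ ((2 / 3 : ℝ) ^ (n / 10) ≤ h (X n)) := by
    intro h'
    exact hn ⟨fun k _ => hXS k, h'⟩
  rw [not_le] at hn'
  have h2 : n / 10 < pm.lev (X n) := by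
    by_contra hle
    rw [not_lt] at hle
    have : (2 / 3 : ℝ) ^ (n / 10) ≤ (2 / 3 : ℝ) ^ pm.lev (X n) :=
      pow_le_pow_of_le_one (by norm_num) (by norm_num) hle
    exact absurd hn' (not_lt.2 this)
  have h3 : n ≤ 10 * pm.lev (X n) := by omega
  have h4 : (n : ℝ) ≤ 10 * pm.lev (X n) := by exact_mod_cast h3
  linarith

/-- Positive speed from every starting point. -/
theorem ae_speed (v : Vx) : ∀ᵐ X ∂srw G v, ∀ᶠ n : ℕ in atTop,
    (1 / 20 : ℝ) * n ≤ G.dist o (X n) := by
  have h1 : ∀ᵐ X ∂srw G v, ∀ m, (∀ k, X (m + k) ∈ S) →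
      ∀ᶠ n : ℕ in atTop, (n : ℝ) / 10 ≤ pm.lev (X (m + n)) := by
    rw [ae_all_iff]
    intro m
    exact ae_shift isNb ae_speed_of_mem v m
  filter_upwards [h1, ae_eventually_tree v] with X hX1 hX2
  obtain ⟨m, hm⟩ := hX2
  have h2 := hX1 m hm
  obtain ⟨N, hN⟩ := eventually_atTop.1 h2
  filter_upwards [eventually_ge_atTop (N + 2 * m)] with n hn
  have h3 := hN (n - m) (by omega)
  rw [show m + (n - m) = n by omega] at h3
  rw [show G.dist o (X n) = pm.lev (X n) from pm.dist_eq (X n)]
  refine le_trans ?_ h3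
  have h4 : ((n - m : ℕ) : ℝ) = n - m := by
    rw [Nat.cast_sub (by omega)]
  rw [h4]
  have h5 : (2 * m : ℝ) ≤ n := by
    exact_mod_cast (by omega : 2 * m ≤ n)
  linarith

/-! ### Hitting probabilities on the half-line -/

/-- The trajectory visits `z`. -/
def Hits (z : Vx) : Set (ℕ → Vx) := {X | ∃ k, X k = z}

lemma measurableSet_hits (z : Vx) : MeasurableSet (Hits z) := by
  have : Hits z = ⋃ k, (fun X : ℕ → Vx => X k) ⁻¹' {z} := by
    ext X; simp [Hits]
  rw [this]
  exact MeasurableSet.iUnion fun k => (measurable_pi_apply k) (measurableSet_singleton _)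

lemma cons_preimage_hits {v z : Vx} (h : v ≠ z) : cons v ⁻¹' Hits z = Hits z := by
  ext X
  constructor
  · rintro ⟨k, hk⟩
    cases k with
    | zero => exact absurd hk h
    | succ k => exact ⟨k, hk⟩
  · rintro ⟨k, hk⟩
    exact ⟨k + 1, hk⟩

lemma real_hits_self (z : Vx) : (srw G z).real (Hits z) = 1 := by
  have : ∀ᵐ X ∂srw G z, X ∈ Hits z := by
    filter_upwards [ae_zero isNb z] with X hX
    exact ⟨0, hX⟩
  rw [measureReal_def, (mem_ae_iff_prob_eq_one (measurableSet_hits z)).1 this]
  simp

/-- Gambler's ruin: from `ray i`, the vertex `ray M` is visited with probability at least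
`(i + 1) / (M + 1)`. -/
lemma real_hits_ray {i M : ℕ} (h : i ≤ M) :
    ((i : ℝ) + 1) / (M + 1) ≤ (srw G (ray i)).real (Hits (ray M)) := by
  rcases h.eq_or_lt with rfl | h
  · have h1 : (i : ℝ) + 1 ≠ 0 := by positivity
    rw [real_hits_self, div_self h1]
  let q : ℕ → ℝ := fun j => (srw G (ray j)).real (Hits (ray M))
  let q0 : ℝ := (srw G o).real (Hits (ray M))
  have hq0 : 0 ≤ q0 := measureReal_nonneg
  have h1 : q 0 = (q0 + q 1) / 2 ∨ M = 0 := by
    rcases Nat.eq_zero_or_pos M with hM | hM
    · exact Or.inr hM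
    · left
      change (srw G (ray 0)).real _ = _
      have hne : ray 0 ≠ ray M := by
        intro h'
        injection h' with h'
        omega
      rw [real_srw isNb, cons_preimage_hits hne,
        avg_ray_zero (fun w => (srw G w).real (Hits (ray M)))]
  have hs : ∀ j, j + 1 < M → q (j + 1) = (q j + q (j + 2)) / 2 := by
    intro j hj
    change (srw G (ray (j + 1))).real _ = _
    have hne : ray (j + 1) ≠ ray M := by
      intro h'
      injection h' with h'
      omega
    rw [real_srw isNb, cons_preimage_hits hne,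
      avg_ray_succ (fun w => (srw G w).real (Hits (ray M)))]
  have hM : 0 < M := by omega
  have h1' : q 0 = (q0 + q 1) / 2 := by
    rcases h1 with h1 | h1
    · exact h1
    · omega
  -- `q j = q0 + (j + 1) d`
  have hlin : ∀ j : ℕ, j + 1 ≤ M → q j = q0 + (j + 1) * (q 0 - q0) ∧
      q (j + 1) = q0 + (j + 2) * (q 0 - q0) := by
    intro j
    induction j with
    | zero =>
      intro _
      constructor
      · push_cast; ring
      · push_cast; linarith
    | succ j ih =>
      intro hj
      obtain ⟨ih1, ih2⟩ := ih (by omega)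
      refine ⟨?_, ?_⟩
      · rw [ih2]; push_cast; ring
      · have := hs j (by omega)
        rw [ih1, ih2] at this
        push_cast
        have h2 : q (j + 2) = 2 * (q0 + (j + 2) * (q 0 - q0)) - (q0 + (j + 1) * (q 0 - q0)) := by
          linarith
        rw [show j + 1 + 1 = j + 2 from rfl, h2]
        ring
  have hqM : q M = 1 := real_hits_self _
  have hlM := (hlin (M - 1) (by omega)).2
  rw [show M - 1 + 1 = M by omega, hqM] at hlM
  have hc : ((M - 1 : ℕ) : ℝ) = M - 1 := by
    rw [Nat.cast_sub (by omega)]; simp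
  rw [hc] at hlM
  have hli := (hlin i (by omega)).1
  change _ ≤ q i
  rw [hli]
  have hMp : (0 : ℝ) < M + 1 := by positivity
  have hd : q 0 - q0 = (1 - q0) / (M + 1) := by
    field_simp
    linarith
  rw [hd, div_le_iff₀ hMp]
  have hiM : (i : ℝ) ≤ M := by exact_mod_cast h.le
  have : (q0 + (i + 1) * ((1 - q0) / (M + 1))) * (M + 1) = q0 * (M + 1) + (i + 1) * (1 - q0) := by
    field_simp
  rw [this]
  nlinarith

lemma real_hits_root (M : ℕ) : 0 < (srw G o).real (Hits (ray M)) := by
  have hne : o ≠ ray M := by simp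
  rw [real_srw isNb, cons_preimage_hits hne, avg_root (fun w => (srw G w).real (Hits (ray M)))]
  have h1 := real_hits_ray (Nat.zero_le M)
  have h2 : (0 : ℝ) < (((0 : ℕ) : ℝ) + 1) / (M + 1) := by positivity
  have h3 : 0 ≤ (srw G (tree [false])).real (Hits (ray M)) := measureReal_nonneg
  have h4 : 0 ≤ (srw G (tree [true])).real (Hits (ray M)) := measureReal_nonneg
  linarith

/-- From the half-line the root is visited almost surely. -/
lemma ae_hits_root (j : ℕ) : ∀ᵐ X ∂srw G (ray j), X ∈ Hits o := by
  filter_upwards [ae_zero isNb (ray j), ae_adj isNb (ray j), ae_exists_not_ray (ray j)]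
    with X h0 h1 h2
  by_contra hno
  have key : ∀ n, ∃ i, X n = ray i := by
    intro n
    induction n with
    | zero => exact ⟨j, h0⟩
    | succ n ih =>
      obtain ⟨i, hi⟩ := ih
      have := h1 n
      rw [hi] at this
      rcases adj_ray this with h | h | ⟨l, h, _⟩
      · exact absurd ⟨n + 1, h⟩ hno
      · exact ⟨_, h⟩
      · exact ⟨_, h⟩
  obtain ⟨n, hn⟩ := h2
  obtain ⟨i, hi⟩ := key n
  exact hn i hi

/-- A nearest neighbour trajectory from the root to `ray M` visits all `ray j`, `j ≤ M`. -/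
lemma hits_ray_of_le {X : ℕ → Vx} (h0 : X 0 = o) (h1 : ∀ n, G.Adj (X n) (X (n + 1))) {M j : ℕ}
    (hj : j ≤ M) (hM : X ∈ Hits (ray M)) : X ∈ Hits (ray j) := by
  obtain ⟨k, hk⟩ := hM
  have key : ∀ n M, X n = ray M → ∀ j ≤ M, ∃ n' ≤ n, X n' = ray j := by
    intro n
    induction n with
    | zero =>
      intro M hM
      rw [h0] at hM
      exact absurd hM (by simp)
    | succ n ih =>
      intro M hM j hj
      rcases hj.eq_or_lt with rfl | hj
      · exact ⟨n + 1, le_rfl, hM⟩
      have hadj := (h1 n).symm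
      rw [hM] at hadj
      rcases adj_ray hadj with h | h | ⟨i, h, hi⟩
      · -- `X n = o`, so `M = 0`
        have h' := h1 n
        rw [h, hM] at h'
        have := (adj_ray_tree h').2
        omega
      · obtain ⟨n', hn', hn''⟩ := ih _ h j (by omega)
        exact ⟨n', by omega, hn''⟩
      · obtain ⟨n', hn', hn''⟩ := ih _ h j (by omega)
        exact ⟨n', by omega, hn''⟩
  obtain ⟨n', _, hn'⟩ := key k M hk j hj
  exact ⟨n', hn'⟩

end Vx

end Pool.Agent.Lib.MP_32e6ae_pr
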