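import Mathlib

/-! Simple random walk on a graph and the Poisson frog model: definitions. -/

open MeasureTheory ProbabilityTheory
open scoped ENNReal NNReal

namespace Pool.Agent.Lib.MP_32e6ae_pr

variable {V : Type*} [MeasurableSpace V]

/-- One step of simple random walk from `v`: the uniform distribution on the neighbours of `v`
(the walk stays put at a vertex whose neighbourhood is empty or infinite). -/
noncomputable def stepMeasure (G : SimpleGraph V) (v : V) : Measure V :=
  open Classical in
  if (G.neighborSet v).Finite ∧ (G.neighborSet v).Nonempty then uniformOn (G.neighborSet v)
  else Measure.dirac v

/-- The transition kernel of simple random walk on `G`. -/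
noncomputable def stepKernel [Countable V] [MeasurableSingletonClass V] (G : SimpleGraph V) :
    Kernel V V :=
  Kernel.ofFunOfCountable (stepMeasure G)

instance instMarkovStepKernel [Countable V] [MeasurableSingletonClass V] (G : SimpleGraph V) :
    IsMarkovKernel (stepKernel G) := by
  constructor
  intro v
  change IsProbabilityMeasure (stepMeasure G v)
  unfold stepMeasure
  split_ifs with h
  · exact isProbabilityMeasure_uniformOn h.1 h.2
  · infer_instance

/-- The law, on the space of trajectories `ℕ → V`, of simple random walk on `G` started at `v`
(Ionescu-Tulcea trajectory measure of the kernel `stepKernel G`). -/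
noncomputable def srw [Countable V] [MeasurableSingletonClass V] (G : SimpleGraph V) (v : V) :
    Measure (ℕ → V) :=
  Kernel.traj (X := fun _ => V)
    (fun n => (stepKernel G).comap (fun h : (i : Finset.Iic n) → V => h ⟨n, by simp⟩)
      (by fun_prop)) 0 (fun _ => v)

/-- The randomness of the frog model attached to one vertex: the number of sleeping particles and
the trajectories of the particles `0, 1, 2, ...` of this vertex. -/
abbrev Env (V : Type*) := V → ℕ × (ℕ → ℕ → V)

/-- The probability measure of the frog model with i.i.d. Poisson(`r`) sleeping particles:
independently over the vertices `v`, the number of sleeping particles is Poisson(`r`) and the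
particles of `v` have independent simple random walk trajectories started at `v`. -/
noncomputable def frogMeasure [Countable V] [MeasurableSingletonClass V] (G : SimpleGraph V)
    (r : ℝ≥0) : Measure (Env V) :=
  Measure.infinitePi (fun v => (poissonMeasure r).prod (Measure.infinitePi (fun _ : ℕ => srw G v)))

/-- The number of particles initially at `v`: one (the initially active one) at the root `o`,
the number of sleeping particles of `v` otherwise. -/
noncomputable def numAt (o : V) (ω : Env V) (v : V) : ℕ :=
  open Classical in if v = o then 1 else (ω v).1

/-- The dynamics of the frog model: `wake o ω t v = some s` iff the particles of `v` became active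
at time `s ≤ t` (`none` if they are not active at time `t`). At time `0` only the root is active;
at time `t + 1` the vertex `v` becomes active if it was not active and some particle `i` of some
active vertex `u`, whose particles are active since time `s`, is at `v` at time `t + 1`. -/
noncomputable def wake (o : V) (ω : Env V) : ℕ → V → Option ℕ
  | 0, v => open Classical in if v = o then some 0 else none
  | t + 1, v => open Classical in
    match wake o ω t v with
    | some s => some s
    | none =>
      if ∃ u s i, wake o ω t u = some s ∧ i < numAt o ω u ∧ (ω u).2 i (t + 1 - s) = v then
        some (t + 1)
      else none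

/-- Particle `i` of vertex `v` exists, becomes active and visits the root `o` at some time. -/
def VisitsRoot (o : V) (ω : Env V) (p : V × ℕ) : Prop :=
  p.2 < numAt o ω p.1 ∧ ∃ t s, wake o ω t p.1 = some s ∧ (ω p.1).2 p.2 (t - s) = o

/-- The frog model with Poisson(`r`) sleeping particles on the graph `G` with root `o` is
transient: almost surely only finitely many particles ever visit `o`. -/
def Transient [Countable V] [MeasurableSingletonClass V] (G : SimpleGraph V) (o : V) (r : ℝ≥0) :
    Prop :=
  ∀ᵐ ω ∂(frogMeasure G r), {p | VisitsRoot o ω p}.Finite

end Pool.Agent.Lib.MP_32e6ae_pr
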