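import Pool.Agent.Lib.MP_32e6ae_pr.Concrete

/-! The frog model on the binary tree with a half-line is not transient. -/

open MeasureTheory ProbabilityTheory Filter
open scoped ENNReal NNReal

namespace Pool.Agent.Lib.MP_32e6ae_pr

/-! ### Deterministic facts on the dynamics -/

section wake

variable {V : Type*} {o : V} {ω : Env V}

lemma wake_succ_of_some {t s : ℕ} {v : V} (h : wake o ω t v = some s) :
    wake o ω (t + 1) v = some s := by
  rw [wake, h]

lemma wake_of_le {t t' s : ℕ} {v : V} (h : wake o ω t v = some s) (ht : t ≤ t') :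
    wake o ω t' v = some s := by
  induction t', ht using Nat.le_induction with
  | base => exact h
  | succ t' _ ih => exact wake_succ_of_some ih

lemma wake_self {t s : ℕ} {v : V} (h : wake o ω t v = some s) : wake o ω s v = some s := by
  induction t with
  | zero =>
    rw [wake] at h
    split_ifs at h with hv
    · injection h with h
      subst h
      rw [wake, if_pos hv]
  | succ t ih =>
    rw [wake] at h
    split at h
    · rename_i s' hs'
      injection h with h
      subst h
      exact ih hs'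
    · rename_i hn
      split_ifs at h with hc
      injection h with h
      subst h
      rw [wake, hn]
      simp only
      rw [if_pos hc]

lemma wake_root : wake o ω 0 o = some 0 := by
  rw [wake, if_pos rfl]

/-- Vertex `v` is eventually active. -/
def Awake (o : V) (ω : Env V) (v : V) : Prop := ∃ t s, wake o ω t v = some s

lemma awake_step {u v : V} {i k : ℕ} (hu : Awake o ω u) (hi : i < numAt o ω u)
    (h0 : (ω u).2 i 0 = u) (hk : (ω u).2 i k = v) : Awake o ω v := by
  cases k with
  | zero =>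
    rw [h0] at hk
    rwa [← hk]
  | succ k =>
    obtain ⟨t, s, hs⟩ := hu
    have h1 := wake_of_le (wake_self hs) (Nat.le_add_right s k)
    rcases hv : wake o ω (s + k) v with _ | s'
    · refine ⟨s + k + 1, s + k + 1, ?_⟩
      rw [wake, hv]
      simp only
      rw [if_pos]
      refine ⟨u, s, i, h1, hi, ?_⟩
      rw [show s + k + 1 - s = k + 1 by omega]
      exact hk
    · exact ⟨_, _, hv⟩

lemma visitsRoot_of {v : V} {i k : ℕ} (hv : Awake o ω v) (hi : i < numAt o ω v)
    (hk : (ω v).2 i k = o) : VisitsRoot o ω (v, i) := by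
  obtain ⟨t, s, hs⟩ := hv
  refine ⟨hi, s + k, s, wake_of_le (wake_self hs) (Nat.le_add_right s k), ?_⟩
  rw [show s + k - s = k by omega]
  exact hk

end wake

namespace Vx

/-- The deterministic core. -/
theorem infinite_visits (ω : Env Vx) (h0 : ∀ v i, (ω v).2 i 0 = v)
    (hadj : ∀ v i n, G.Adj ((ω v).2 i n) ((ω v).2 i (n + 1))) (J : ℕ)
    (hroot : (ω o).2 0 ∈ Hits (ray J))
    (hstep : ∀ j, J ≤ j → ∃ i ≤ j, ∃ a < (ω (ray i)).1, (ω (ray i)).2 a ∈ Hits (ray (j + 1)))
    (hret : ∀ i a, (ω (ray i)).2 a ∈ Hits o)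
    (hinf : ∀ m, ∃ i ≥ m, 0 < (ω (ray i)).1) :
    {p | VisitsRoot o ω p}.Infinite := by
  have hnum : ∀ i, numAt o ω (ray i) = (ω (ray i)).1 := by
    intro i
    rw [numAt, if_neg (by simp)]
  have haw : ∀ j, Awake o ω (ray j) := by
    intro j
    induction j using Nat.strong_induction_on with
    | _ j ih =>
      rcases Nat.lt_or_ge J j with hj | hj
      · obtain ⟨i, hi, a, ha, k, hk⟩ := hstep (j - 1) (by omega)
        rw [show j - 1 + 1 = j by omega] at hk
        refine awake_step (ih i (by omega)) ?_ (h0 _ a) hk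
        rw [hnum]
        exact ha
      · obtain ⟨k, hk⟩ := hits_ray_of_le (h0 o 0) (hadj o 0) hj hroot
        refine awake_step ⟨0, 0, wake_root⟩ ?_ (h0 o 0) hk
        rw [numAt, if_pos rfl]
        exact Nat.one_pos
  have hI : {i : ℕ | 0 < (ω (ray i)).1}.Infinite := by
    rw [← Nat.frequently_atTop_iff_infinite, frequently_atTop]
    exact hinf
  have hinj : Set.InjOn (fun i : ℕ => ((ray i, 0) : Vx × ℕ)) {i : ℕ | 0 < (ω (ray i)).1} := by
    intro i _ j _ h
    simpa using h
  refine (hI.image hinj).mono ?_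
  rintro _ ⟨i, hi, rfl⟩
  obtain ⟨k, hk⟩ := hret i 0
  exact visitsRoot_of (haw i) (by rw [hnum]; exact hi) hk

/-! ### Probabilistic estimates -/

/-- The law of the data at one vertex. -/
noncomputable abbrev siteLaw (r : ℝ≥0) (v : Vx) : Measure (ℕ × (ℕ → ℕ → Vx)) :=
  (poissonMeasure r).prod (Measure.infinitePi (fun _ : ℕ => srw G v))

lemma frogMeasure_eq (r : ℝ≥0) : frogMeasure G r = Measure.infinitePi (siteLaw r) := rfl

instance (r : ℝ≥0) : IsProbabilityMeasure (frogMeasure G r) := by
  rw [frogMeasure_eq]; infer_instance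

lemma ae_path (r : ℝ≥0) (v : Vx) (i : ℕ) {E : (ℕ → Vx) → Prop} (h : ∀ᵐ X ∂srw G v, E X) :
    ∀ᵐ ω ∂frogMeasure G r, E ((ω v).2 i) := by
  have h1 : MeasurePreserving (Function.eval v) (frogMeasure G r) (siteLaw r v) :=
    measurePreserving_eval_infinitePi (siteLaw r) v
  have h2 : MeasurePreserving Prod.snd (siteLaw r v) (Measure.infinitePi (fun _ : ℕ => srw G v)) :=
    measurePreserving_snd
  have h3 : MeasurePreserving (Function.eval i) (Measure.infinitePi (fun _ : ℕ => srw G v))
      (srw G v) := measurePreserving_eval_infinitePi (fun _ : ℕ => srw G v) i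
  exact ((h3.comp h2).comp h1).quasiMeasurePreserving.ae h

/-- `E[p ^ N] = exp(-r (1 - p))` for a Poisson variable. -/
lemma lintegral_pow_poisson (r : ℝ≥0) (p : ℝ) (hp : 0 ≤ p) :
    ∫⁻ n, (ENNReal.ofReal p) ^ n ∂(poissonMeasure r) = ENNReal.ofReal (Real.exp (-(r * (1 - p)))) := by
  rw [lintegral_countable']
  have h1 : ∀ n : ℕ, ENNReal.ofReal p ^ n * poissonMeasure r {n} =
      ENNReal.ofReal (Real.exp (-r) * ((r * p) ^ n / n.factorial)) := by
    intro n
    rw [poissonMeasure_singleton, ← ENNReal.ofReal_pow hp, ← ENNReal.ofReal_mul (by positivity)]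
    congr 1
    rw [mul_pow]
    ring
  simp_rw [h1]
  have hs : HasSum (fun n : ℕ => (r * p : ℝ) ^ n / n.factorial) (Real.exp (r * p)) := by
    rw [Real.exp_eq_exp_ℝ]
    exact NormedSpace.expSeries_div_hasSum_exp _
  have hs2 := hs.mul_left (Real.exp (-r))
  rw [← ENNReal.ofReal_tsum_of_nonneg (fun n => by positivity) hs2.summable, hs2.tsum_eq,
    ← Real.exp_add]
  congr 2
  ring

/-- The probability that no particle of `v` visits `z`. -/
lemma siteLaw_none (r : ℝ≥0) (v z : Vx) :
    siteLaw r v {x | ∀ a < x.1, x.2 a ∉ Hits z} =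
      ENNReal.ofReal (Real.exp (-(r * (srw G v).real (Hits z)))) := by
  have hmeas : MeasurableSet {x : ℕ × (ℕ → ℕ → Vx) | ∀ a < x.1, x.2 a ∉ Hits z} := by
    have : {x : ℕ × (ℕ → ℕ → Vx) | ∀ a < x.1, x.2 a ∉ Hits z} =
        ⋃ n : ℕ, ({n} : Set ℕ) ×ˢ (⋂ a ∈ Finset.range n, (fun S : ℕ → ℕ → Vx => S a) ⁻¹' (Hits z)ᶜ)
          := by
      ext ⟨n, S⟩
      simp
    rw [this]
    refine MeasurableSet.iUnion fun n => (measurableSet_singleton _).prod ?_
    refine Finset.measurableSet_biInter _ fun a _ => ?_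
    exact (measurable_pi_apply a) (measurableSet_hits z).compl
  rw [siteLaw, Measure.prod_apply hmeas]
  have h1 : ∀ n : ℕ, Measure.infinitePi (fun _ : ℕ => srw G v)
      (Prod.mk n ⁻¹' {x : ℕ × (ℕ → ℕ → Vx) | ∀ a < x.1, x.2 a ∉ Hits z}) =
      (ENNReal.ofReal (1 - (srw G v).real (Hits z))) ^ n := by
    intro n
    have : (Prod.mk n ⁻¹' {x : ℕ × (ℕ → ℕ → Vx) | ∀ a < x.1, x.2 a ∉ Hits z}) =
        Set.pi (Finset.range n : Set ℕ) (fun _ => (Hits z)ᶜ) := by
      ext S
      simp
    rw [this, Measure.infinitePi_pi _ (fun _ _ => (measurableSet_hits z).compl),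
      Finset.prod_const, Finset.card_range]
    congr 1
    rw [← probReal_compl_eq_one_sub (measurableSet_hits z), ofReal_measureReal]
  simp_rw [h1]
  rw [lintegral_pow_poisson]
  · congr 2
    ring
  · have : (srw G v).real (Hits z) ≤ 1 := measureReal_le_one
    linarith

/-- The initial particle reaches `ray J`. -/
def evA (J : ℕ) : Set (Env Vx) := {ω | (ω o).2 0 ∈ Hits (ray J)}

/-- No particle of `ray 0, ..., ray j` reaches `ray (j + 1)`. -/
def evF (j : ℕ) : Set (Env Vx) :=
  {ω | ∀ i ≤ j, ∀ a < (ω (ray i)).1, (ω (ray i)).2 a ∉ Hits (ray (j + 1))}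

lemma measurableSet_siteHit (J : ℕ) :
    MeasurableSet {x : ℕ × (ℕ → ℕ → Vx) | x.2 0 ∈ Hits (ray J)} := by
  have : Measurable (fun x : ℕ × (ℕ → ℕ → Vx) => x.2 0) := by fun_prop
  exact this (measurableSet_hits _)

lemma measurableSet_evA (J : ℕ) : MeasurableSet (evA J) := by
  have : Measurable (fun ω : Env Vx => ω o) := measurable_pi_apply _
  exact this (measurableSet_siteHit J)

lemma measure_evA (r : ℝ≥0) (J : ℕ) :
    frogMeasure G r (evA J) = siteLaw r o {x | x.2 0 ∈ Hits (ray J)} := by
  have h1 : MeasurePreserving (Function.eval o) (frogMeasure G r) (siteLaw r o) :=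
    measurePreserving_eval_infinitePi (siteLaw r) o
  exact h1.measure_preimage (measurableSet_siteHit J).nullMeasurableSet

lemma measure_evA_pos (r : ℝ≥0) (J : ℕ) : 0 < frogMeasure G r (evA J) := by
  have h2 : MeasurePreserving Prod.snd (siteLaw r o) (Measure.infinitePi (fun _ : ℕ => srw G o)) :=
    measurePreserving_snd
  have h3 : MeasurePreserving (Function.eval 0) (Measure.infinitePi (fun _ : ℕ => srw G o))
      (srw G o) := measurePreserving_eval_infinitePi (fun _ : ℕ => srw G o) 0
  have h4 := (h3.comp h2).measure_preimage (measurableSet_hits (ray J)).nullMeasurableSet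
  rw [measure_evA]
  have h5 : ((Function.eval 0 ∘ Prod.snd) ⁻¹' Hits (ray J) : Set (ℕ × (ℕ → ℕ → Vx))) =
      {x | x.2 0 ∈ Hits (ray J)} := rfl
  rw [h5] at h4
  rw [h4]
  have h6 := real_hits_root J
  rw [measureReal_def] at h6
  exact (ENNReal.toReal_pos_iff.1 h6).1

lemma measure_inter_le (r : ℝ≥0) (J j : ℕ) :
    frogMeasure G r (evA J ∩ evF j) ≤
      frogMeasure G r (evA J) * ENNReal.ofReal (Real.exp (-(r * ((j + 1) / 2)))) := by
  classical
  let t : (v : Vx) → Set (ℕ × (ℕ → ℕ → Vx)) := fun v => match v with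
    | tree _ => {x | x.2 0 ∈ Hits (ray J)}
    | ray _ => {x | ∀ a < x.1, x.2 a ∉ Hits (ray (j + 1))}
  let s : Finset Vx := insert o ((Finset.range (j + 1)).image ray)
  have hmeas : MeasurableSet {x : ℕ × (ℕ → ℕ → Vx) | ∀ a < x.1, x.2 a ∉ Hits (ray (j + 1))} := by
    have : {x : ℕ × (ℕ → ℕ → Vx) | ∀ a < x.1, x.2 a ∉ Hits (ray (j + 1))} =
        ⋃ n : ℕ, ({n} : Set ℕ) ×ˢ (⋂ a ∈ Finset.range n,
          (fun S : ℕ → ℕ → Vx => S a) ⁻¹' (Hits (ray (j + 1)))ᶜ) := by
      ext ⟨n, S⟩
      simp
    rw [this]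
    refine MeasurableSet.iUnion fun n => (measurableSet_singleton _).prod ?_
    refine Finset.measurableSet_biInter _ fun a _ => ?_
    exact (measurable_pi_apply a) (measurableSet_hits _).compl
  have ht : ∀ v, MeasurableSet (t v) := by
    rintro (w | i)
    · exact measurableSet_siteHit J
    · exact hmeas
  have hset : evA J ∩ evF j = Set.pi (s : Set Vx) t := by
    ext ω
    constructor
    · rintro ⟨h1, h2⟩ v hv
      simp only [s, Finset.coe_insert, Finset.coe_image, Set.mem_insert_iff, Set.mem_image,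
        Finset.mem_coe, Finset.mem_range] at hv
      rcases hv with rfl | ⟨i, hi, rfl⟩
      · exact h1
      · exact h2 i (by omega)
    · intro h
      refine ⟨h o (by simp [s]), fun i hi => h (ray i) ?_⟩
      simp only [s, Finset.coe_insert, Finset.coe_image, Set.mem_insert_iff, Set.mem_image,
        Finset.mem_coe, Finset.mem_range]
      exact Or.inr ⟨i, by omega, rfl⟩
  rw [hset, frogMeasure_eq, Measure.infinitePi_pi _ (fun v _ => ht v), Finset.prod_insert (by simp),
    Finset.prod_image (by intro a _ b _ h; simpa using h), ← frogMeasure_eq, measure_evA]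
  refine mul_le_mul_right ?_ _
  calc ∏ i ∈ Finset.range (j + 1), siteLaw r (ray i) (t (ray i))
      ≤ ∏ i ∈ Finset.range (j + 1),
          ENNReal.ofReal (Real.exp (-(r * (((i : ℝ) + 1) / ((j : ℝ) + 2))))) := by
        refine Finset.prod_le_prod' fun i hi => ?_
        have hi' : i ≤ j + 1 := by
          have := Finset.mem_range.1 hi
          omega
        have h1 : siteLaw r (ray i) (t (ray i)) = _ := siteLaw_none r (ray i) (ray (j + 1))
        rw [h1]
        refine ENNReal.ofReal_le_ofReal (Real.exp_le_exp.2 (neg_le_neg ?_))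
        have h2 := real_hits_ray hi'
        have h3 : (((j + 1 : ℕ) : ℝ) + 1) = (j : ℝ) + 2 := by push_cast; ring
        rw [h3] at h2
        exact mul_le_mul_of_nonneg_left h2 r.2
    _ = ENNReal.ofReal (Real.exp (-(r * ((j + 1) / 2)))) := by
        rw [← ENNReal.ofReal_prod_of_nonneg (fun i _ => (Real.exp_pos _).le), ← Real.exp_sum]
        congr 2
        rw [Finset.sum_neg_distrib, ← Finset.mul_sum, ← Finset.sum_div]
        have hsum : ∑ i ∈ Finset.range (j + 1), ((i : ℝ) + 1) = (j + 1) * (j + 2) / 2 := by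
          clear * -
          induction j with
          | zero => simp
          | succ j ih =>
            rw [Finset.sum_range_succ, ih]
            push_cast
            ring
        rw [hsum]
        have : (j : ℝ) + 2 ≠ 0 := by positivity
        field_simp

/-- Almost surely infinitely many half-line vertices carry a particle. -/
lemma ae_infinite_particles (r : ℝ≥0) (hr : 0 < r) :
    ∀ᵐ ω ∂frogMeasure G r, ∀ m, ∃ i ≥ m, 0 < (ω (ray i)).1 := by
  classical
  rw [ae_all_iff]
  intro m
  rw [ae_iff]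
  have hp : poissonMeasure r {0} = ENNReal.ofReal (Real.exp (-r)) := by
    rw [poissonMeasure_singleton]
    simp
  have hbound : ∀ M : ℕ, frogMeasure G r {ω | ¬ ∃ i ≥ m, 0 < (ω (ray i)).1} ≤
      (ENNReal.ofReal (Real.exp (-r))) ^ M := by
    intro M
    let s : Finset Vx := (Finset.Ico m (m + M)).image ray
    have hmt : MeasurableSet (({0} : Set ℕ) ×ˢ (Set.univ : Set (ℕ → ℕ → Vx))) :=
      (measurableSet_singleton _).prod MeasurableSet.univ
    have hsub : {ω : Env Vx | ¬ ∃ i ≥ m, 0 < (ω (ray i)).1} ⊆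
        Set.pi (s : Set Vx) (fun _ => ({0} : Set ℕ) ×ˢ (Set.univ : Set (ℕ → ℕ → Vx))) := by
      intro ω hω v hv
      simp only [s, Finset.coe_image, Set.mem_image, Finset.mem_coe, Finset.mem_Ico] at hv
      obtain ⟨i, ⟨hi1, hi2⟩, rfl⟩ := hv
      refine ⟨?_, trivial⟩
      by_contra hne
      exact hω ⟨i, hi1, Nat.pos_of_ne_zero hne⟩
    refine (measure_mono hsub).trans ?_
    rw [frogMeasure_eq, Measure.infinitePi_pi _ (fun v _ => hmt),
      Finset.prod_image (by intro a _ b _ h; simpa using h)]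
    have : ∀ i ∈ Finset.Ico m (m + M), siteLaw r (ray i)
        (({0} : Set ℕ) ×ˢ (Set.univ : Set (ℕ → ℕ → Vx))) = ENNReal.ofReal (Real.exp (-r)) := by
      intro i _
      rw [siteLaw, Measure.prod_prod, hp]
      simp
    rw [Finset.prod_congr rfl this, Finset.prod_const]
    simp
  have hlim : Tendsto (fun M : ℕ => (ENNReal.ofReal (Real.exp (-r))) ^ M) atTop (nhds 0) := by
    apply ENNReal.tendsto_pow_atTop_nhds_zero_of_lt_one
    rw [← ENNReal.ofReal_one]
    refine (ENNReal.ofReal_lt_ofReal_iff one_pos).2 ?_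
    rw [Real.exp_lt_one_iff]
    have : (0 : ℝ) < r := hr
    linarith
  exact le_antisymm (ge_of_tendsto' hlim hbound) zero_le

/-- For every density the frog model on the binary tree with a half-line is not transient. -/
theorem not_transient (r : ℝ≥0) (hr : 0 < r) : ¬ Transient G o r := by
  intro htr
  have hr' : (0 : ℝ) < r := hr
  -- summability of the failure probabilities
  let g : ℕ → ℝ := fun j => Real.exp (-(r * ((j + 1) / 2)))
  have hg0 : ∀ j, 0 ≤ g j := fun j => (Real.exp_pos _).le
  have hgs : Summable g := by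
    have : ∀ j, g j = Real.exp (-(r / 2)) * (Real.exp (-(r / 2))) ^ j := by
      intro j
      simp only [g]
      rw [← Real.exp_nat_mul, ← Real.exp_add]
      congr 1
      ring
    rw [funext this]
    refine (summable_geometric_of_lt_one (Real.exp_pos _).le ?_).mul_left _
    rw [Real.exp_lt_one_iff]
    linarith
  obtain ⟨J, hJ⟩ : ∃ J : ℕ, ∑' j, g (j + J) < 1 := by
    have := tendsto_sum_nat_add g
    have h2 := (this.eventually (gt_mem_nhds one_pos)).exists
    exact h2
  -- the good event has positive probability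
  have hA := measure_evA_pos r J
  have hAtop : frogMeasure G r (evA J) ≠ ⊤ := measure_ne_top _ _
  have hbad : frogMeasure G r (evA J ∩ ⋃ j, evF (j + J)) < frogMeasure G r (evA J) := by
    calc frogMeasure G r (evA J ∩ ⋃ j, evF (j + J))
        ≤ ∑' j, frogMeasure G r (evA J ∩ evF (j + J)) := by
          rw [Set.inter_iUnion]
          exact measure_iUnion_le _
      _ ≤ ∑' j, frogMeasure G r (evA J) * ENNReal.ofReal (g (j + J)) := by
          refine ENNReal.tsum_le_tsum fun j => ?_
          exact measure_inter_le r J (j + J)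
      _ = frogMeasure G r (evA J) * ENNReal.ofReal (∑' j, g (j + J)) := by
          rw [ENNReal.tsum_mul_left, ENNReal.ofReal_tsum_of_nonneg (fun j => hg0 _)
            ((summable_nat_add_iff J).2 hgs)]
      _ < frogMeasure G r (evA J) * 1 := by
          refine (ENNReal.mul_lt_mul_iff_right hA.ne' hAtop).2 ?_
          rw [← ENNReal.ofReal_one]
          exact (ENNReal.ofReal_lt_ofReal_iff one_pos).2 hJ
      _ = frogMeasure G r (evA J) := mul_one _
  have hgood : frogMeasure G r (evA J \ ⋃ j, evF (j + J)) ≠ 0 := by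
    intro h0
    have h1 : frogMeasure G r (evA J) ≤ frogMeasure G r (evA J ∩ ⋃ j, evF (j + J)) +
        frogMeasure G r (evA J \ ⋃ j, evF (j + J)) := by
      refine (measure_mono ?_).trans (measure_union_le _ _)
      intro ω hω
      by_cases h : ω ∈ ⋃ j, evF (j + J)
      · exact Or.inl ⟨hω, h⟩
      · exact Or.inr ⟨hω, h⟩
    rw [h0, add_zero] at h1
    exact absurd hbad (not_lt.2 h1)
  apply hgood
  have hae : ∀ᵐ ω ∂frogMeasure G r, ω ∉ evA J \ ⋃ j, evF (j + J) := by
    have a1 : ∀ᵐ ω ∂frogMeasure G r, ∀ v i, (ω v).2 i 0 = v := by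
      rw [ae_all_iff]; intro v
      rw [ae_all_iff]; intro i
      exact ae_path r v i (ae_zero isNb v)
    have a2 : ∀ᵐ ω ∂frogMeasure G r, ∀ v i, ∀ n, G.Adj ((ω v).2 i n) ((ω v).2 i (n + 1)) := by
      rw [ae_all_iff]; intro v
      rw [ae_all_iff]; intro i
      exact ae_path r v i (ae_adj isNb v)
    have a3 : ∀ᵐ ω ∂frogMeasure G r, ∀ i a, (ω (ray i)).2 a ∈ Hits o := by
      rw [ae_all_iff]; intro i
      rw [ae_all_iff]; intro a
      exact ae_path r (ray i) a (ae_hits_root i)
    filter_upwards [a1, a2, a3, ae_infinite_particles r hr, htr] with ω h1 h2 h3 h4 h5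
    rintro ⟨h6, h7⟩
    refine infinite_visits ω h1 h2 J h6 ?_ h3 h4 h5
    intro j hj
    by_contra hno
    apply h7
    refine Set.mem_iUnion.2 ⟨j - J, ?_⟩
    rw [show j - J + J = j by omega]
    intro i hi a ha hmem
    exact hno ⟨i, hi, a, ha, hmem⟩
  rw [ae_iff] at hae
  refine measure_mono_null ?_ hae
  intro x hx hx'
  exact hx' hx

end Vx

end Pool.Agent.Lib.MP_32e6ae_pr
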