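import Pool.Agent.Lib.MP_32e6ae_pr.Defs

/-! General facts on the law of simple random walk. -/

open MeasureTheory ProbabilityTheory Filter
open scoped ENNReal NNReal

namespace Pool.Agent.Lib.MP_32e6ae_pr

set_option linter.unusedSectionVars false

variable {V : Type*} [MeasurableSpace V] [Countable V] [MeasurableSingletonClass V]

instance instProbSrw (G : SimpleGraph V) (v : V) : IsProbabilityMeasure (srw G v) := by
  unfold srw; infer_instance

/-- Cylinder sets. -/
def cyl (n : ℕ) (p : ℕ → V) : Set (ℕ → V) := {X | ∀ k ≤ n, X k = p k}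

lemma measurableSet_cyl (n : ℕ) (p : ℕ → V) : MeasurableSet (cyl n p) := by
  have : cyl n p = ⋂ k ∈ Finset.range (n + 1), (fun X : ℕ → V => X k) ⁻¹' {p k} := by
    ext X; simp [cyl]
  rw [this]
  refine Finset.measurableSet_biInter _ fun k _ => ?_
  exact (measurable_pi_apply k) (measurableSet_singleton _)

/-- Two probability measures on trajectories that agree on cylinders are equal. -/
theorem ext_cyl {μ ν : Measure (ℕ → V)} [IsProbabilityMeasure μ] [IsProbabilityMeasure ν]
    (h : ∀ n p, μ (cyl n p) = ν (cyl n p)) : μ = ν := by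
  have h1 : IsProjectiveLimit (α := fun _ : ℕ => V) μ (fun I => μ.map I.restrict) := fun I => rfl
  have hproj : IsProjectiveMeasureFamily (α := fun _ : ℕ => V) (ι := ℕ)
      (fun I => μ.map I.restrict) := by
    intro I J hJ
    rw [Measure.map_map (by fun_prop) (by fun_prop)]
    rfl
  have h2 : IsProjectiveLimit (α := fun _ : ℕ => V) ν (fun I => μ.map I.restrict) := by
    rw [isProjectiveLimit_nat_iff hproj]
    intro n
    refine Measure.ext_of_singleton fun q => ?_
    rw [Measure.map_apply (by fun_prop) (measurableSet_singleton _),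
      Measure.map_apply (by fun_prop) (measurableSet_singleton _)]
    have hv : Nonempty V := ⟨q ⟨n, by simp⟩⟩
    let p : ℕ → V := fun k => if hk : k ≤ n then q ⟨k, by simpa using hk⟩ else Classical.arbitrary V
    have e1 : (Preorder.frestrictLe n : (ℕ → V) → _) ⁻¹' {q} = cyl n p := by
      ext X
      simp only [Set.mem_preimage, Set.mem_singleton_iff, cyl, Set.mem_ofPred_eq]
      constructor
      · intro hX k hk
        have := congrFun hX ⟨k, by simpa using hk⟩
        simp only [p, hk, dif_pos]
        exact this
      · intro hX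
        funext k
        have hk : (k : ℕ) ≤ n := Finset.mem_Iic.1 k.2
        have := hX k hk
        simp only [p, hk, dif_pos] at this
        exact this
    have e2 : ((Finset.Iic n).restrict : (ℕ → V) → _) ⁻¹' {q} = cyl n p := e1
    rw [e1, e2]
    exact (h n p).symm
  exact h1.unique h2

lemma srw_zero (G : SimpleGraph V) (v : V) : srw G v {X | X 0 = v} = 1 := by
  unfold srw
  have h := Kernel.traj_map_frestrictLe_apply (X := fun _ => V)
    (κ := fun n => (stepKernel G).comap (fun h : (i : Finset.Iic n) → V => h ⟨n, by simp⟩)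
      (by fun_prop)) 0 0 (fun _ => v)
  rw [Kernel.partialTraj_self, Kernel.id_apply] at h
  have h2 := congrArg (fun μ => μ {(fun _ => v)}) h
  simp only at h2
  rw [Measure.map_apply (by fun_prop) (measurableSet_singleton _),
    Measure.dirac_apply' _ (measurableSet_singleton _), Set.indicator_of_mem (by simp),
    Pi.one_apply] at h2
  rw [← h2]
  congr 1
  ext X
  simp only [Set.mem_ofPred_eq, Set.mem_preimage, Set.mem_singleton_iff]
  constructor
  · intro hX
    funext k
    have hk : (k : ℕ) = 0 := Nat.le_zero.1 (Finset.mem_Iic.1 k.2)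
    change X k = v
    rw [hk, hX]
  · intro hX
    exact congrFun hX ⟨0, by simp⟩

lemma srw_cyl_succ (G : SimpleGraph V) (v : V) (n : ℕ) (p : ℕ → V) :
    srw G v (cyl (n + 1) p) = srw G v (cyl n p) * stepMeasure G (p n) {p (n + 1)} := by
  have key := Kernel.partialTraj_compProd_eq_map_traj (X := fun _ => V)
    (κ := fun n => (stepKernel G).comap (fun h : (i : Finset.Iic n) → V => h ⟨n, by simp⟩)
      (by fun_prop)) (a := 0) (b := n) (Nat.zero_le _) (x₀ := fun _ => v)
  rw [← Kernel.traj_map_frestrictLe_apply] at key
  have hS : MeasurableSet ({q : (i : Finset.Iic n) → V | ∀ k, q k = p k}) := by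
    exact MeasurableSet.of_discrete
  have h2 := congrArg (fun μ => μ ({q : (i : Finset.Iic n) → V | ∀ k, q k = p k} ×ˢ {p (n + 1)}))
    key
  rw [Measure.compProd_apply_prod hS (measurableSet_singleton _),
    Measure.map_apply (by fun_prop) (hS.prod (measurableSet_singleton _))] at h2
  have e1 : (fun x : ℕ → V => ((Preorder.frestrictLe n x : (i : Finset.Iic n) → V), x (n + 1))) ⁻¹'
      ({q : (i : Finset.Iic n) → V | ∀ k, q k = p k} ×ˢ {p (n + 1)}) = cyl (n + 1) p := by
    ext X
    simp only [Set.mem_preimage, Set.mem_prod, Set.mem_ofPred_eq, Set.mem_singleton_iff, cyl]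
    constructor
    · rintro ⟨h1, h2⟩ k hk
      rcases Nat.lt_or_ge n k with hk' | hk'
      · obtain rfl : k = n + 1 := by omega
        exact h2
      · exact h1 ⟨k, by simpa using hk'⟩
    · intro h
      refine ⟨fun k => h k ?_, h _ le_rfl⟩
      have : (k : ℕ) ≤ n := Finset.mem_Iic.1 k.2
      omega
  rw [e1] at h2
  rw [srw, ← h2, Measure.restrict_map (by fun_prop) hS, lintegral_map (by fun_prop) (by fun_prop)]
  have e2 : (Preorder.frestrictLe n : (ℕ → V) → _) ⁻¹'
      {q : (i : Finset.Iic n) → V | ∀ k, q k = p k} = cyl n p := by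
    ext X
    simp only [Set.mem_preimage, Set.mem_ofPred_eq, cyl]
    constructor
    · intro h k hk
      exact h ⟨k, by simpa using hk⟩
    · intro h k
      exact h k (Finset.mem_Iic.1 k.2)
  rw [e2]
  rw [setLIntegral_congr_fun (measurableSet_cyl n p)
    (g := fun _ => stepMeasure G (p n) {p (n + 1)})]
  · rw [setLIntegral_const, mul_comm]
  · intro X hX
    simp only
    rw [Kernel.comap_apply]
    have : (Preorder.frestrictLe n X : (i : Finset.Iic n) → V) ⟨n, by simp⟩ = p n := hX n le_rfl
    rw [this]
    rfl

/-- Prepend a starting point to a trajectory. -/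
def cons (v : V) (X : ℕ → V) : ℕ → V
  | 0 => v
  | n + 1 => X n

@[simp] lemma cons_zero (v : V) (X : ℕ → V) : cons v X 0 = v := rfl
@[simp] lemma cons_succ (v : V) (X : ℕ → V) (n : ℕ) : cons v X (n + 1) = X n := rfl

@[fun_prop]
lemma measurable_cons (v : V) : Measurable (cons v) := by
  rw [measurable_pi_iff]
  intro n
  cases n with
  | zero => exact measurable_const
  | succ n => exact measurable_pi_apply n

lemma srw_cyl_zero (G : SimpleGraph V) (v : V) (p : ℕ → V) :
    srw G v (cyl 0 p) = {v' | v' = v}.indicator (fun _ => 1) (p 0) := by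
  have hm : MeasurableSet {X : ℕ → V | X 0 = v} := by
    have : {X : ℕ → V | X 0 = v} = (fun X => X 0) ⁻¹' {v} := by ext X; simp
    rw [this]
    exact (measurable_pi_apply 0) (measurableSet_singleton v)
  by_cases h : p 0 = v
  · rw [Set.indicator_of_mem (by simpa using h), ← srw_zero G v]
    congr 1
    ext X
    simp [cyl, h]
  · rw [Set.indicator_of_notMem (by simpa using h)]
    have h1 := (prob_compl_eq_zero_iff hm).2 (srw_zero G v)
    refine measure_mono_null ?_ h1
    intro X hX hX0
    exact h ((hX 0 le_rfl).symm.trans hX0)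

/-- First step decomposition. -/
theorem srw_eq_sum (G : SimpleGraph V) (v : V) (s : Finset V) (hs : (s : Set V) = G.neighborSet v)
    (hne : s.Nonempty) :
    srw G v = ∑ w ∈ s, ((s.card : ℝ≥0∞)⁻¹) • (srw G w).map (cons v) := by
  classical
  have hcard : (s.card : ℝ≥0∞) ≠ 0 := by
    simpa using hne.ne_empty
  have hstep : ∀ w, stepMeasure G v {w} = if w ∈ s then (s.card : ℝ≥0∞)⁻¹ else 0 := by
    intro w
    have h1 : (G.neighborSet v).Finite ∧ (G.neighborSet v).Nonempty := by
      rw [← hs]; exact ⟨s.finite_toSet, by simpa using hne⟩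
    rw [stepMeasure, if_pos h1, ← hs]
    have : ({w} : Set V) = (({w} : Finset V) : Set V) := by simp
    rw [this, uniformOn_apply_finset]
    split_ifs with hw
    · rw [Finset.inter_singleton_of_mem hw]; simp
    · rw [Finset.inter_singleton_of_notMem hw]; simp
  have hprob : IsProbabilityMeasure
      (∑ w ∈ s, ((s.card : ℝ≥0∞)⁻¹) • (srw G w).map (cons v)) := by
    constructor
    rw [Measure.finsetSum_apply]
    have : ∀ w ∈ s, (((s.card : ℝ≥0∞)⁻¹) • (srw G w).map (cons v)) Set.univ
        = (s.card : ℝ≥0∞)⁻¹ := by
      intro w _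
      rw [Measure.smul_apply, Measure.map_apply (by fun_prop) MeasurableSet.univ]
      simp
    rw [Finset.sum_congr rfl this, Finset.sum_const, nsmul_eq_mul]
    exact ENNReal.mul_inv_cancel hcard (by simp)
  refine ext_cyl fun n => ?_
  induction n with
  | zero =>
    intro p
    rw [srw_cyl_zero, Measure.finsetSum_apply]
    have : ∀ w ∈ s, (((s.card : ℝ≥0∞)⁻¹) • (srw G w).map (cons v)) (cyl 0 p)
        = (s.card : ℝ≥0∞)⁻¹ * {v' | v' = v}.indicator (fun _ => 1) (p 0) := by
      intro w _
      rw [Measure.smul_apply, Measure.map_apply (by fun_prop) (measurableSet_cyl 0 p)]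
      by_cases h : p 0 = v
      · have : cons v ⁻¹' cyl 0 p = Set.univ := by
          ext X; simp [cyl, h]
        rw [this, Set.indicator_of_mem (by simpa using h)]
        simp
      · have : cons v ⁻¹' cyl 0 p = ∅ := by
          ext X
          simp only [Set.mem_preimage, cyl, Set.mem_ofPred_eq, Set.mem_empty_iff_false, iff_false]
          intro h'
          exact h (h' 0 le_rfl).symm
        rw [this, Set.indicator_of_notMem (by simpa using h)]
        simp
    rw [Finset.sum_congr rfl this, Finset.sum_const, nsmul_eq_mul, ← mul_assoc,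
      ENNReal.mul_inv_cancel hcard (by simp), one_mul]
  | succ n ih =>
    intro p
    rw [srw_cyl_succ, Measure.finsetSum_apply]
    cases n with
    | zero =>
      rw [srw_cyl_zero]
      have : ∀ w ∈ s, (((s.card : ℝ≥0∞)⁻¹) • (srw G w).map (cons v)) (cyl (0 + 1) p)
          = if w = p 1 then (s.card : ℝ≥0∞)⁻¹ * {v' | v' = v}.indicator (fun _ => 1) (p 0)
            else 0 := by
        intro w _
        rw [Measure.smul_apply, Measure.map_apply (by fun_prop) (measurableSet_cyl _ p)]
        by_cases h : p 0 = v
        · have : cons v ⁻¹' cyl (0 + 1) p = cyl 0 (fun k => p (k + 1)) := by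
            ext X
            simp only [Set.mem_preimage, cyl, Set.mem_ofPred_eq]
            constructor
            · intro h' k hk
              exact h' (k + 1) (by omega)
            · intro h' k hk
              cases k with
              | zero => exact h.symm
              | succ k => exact h' k (by omega)
          rw [this, srw_cyl_zero, Set.indicator_of_mem (s := {v' | v' = v}) (by simpa using h)]
          by_cases hw : w = p 1
          · rw [if_pos hw, Set.indicator_of_mem (by simp [hw])]
            simp
          · rw [if_neg hw, Set.indicator_of_notMem (by simpa using Ne.symm hw)]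
            simp
        · have : cons v ⁻¹' cyl (0 + 1) p = ∅ := by
            ext X
            simp only [Set.mem_preimage, cyl, Set.mem_ofPred_eq, Set.mem_empty_iff_false,
              iff_false]
            intro h'
            exact h (h' 0 (by omega)).symm
          rw [this, Set.indicator_of_notMem (s := {v' | v' = v}) (by simpa using h)]
          simp
      rw [Finset.sum_congr rfl this, Finset.sum_ite_eq', mul_comm]
      by_cases h : p 0 = v
      · rw [Set.indicator_of_mem (by simpa using h), h, hstep]
        simp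
      · rw [Set.indicator_of_notMem (by simpa using h)]
        simp
    | succ n =>
      rw [ih, Measure.finsetSum_apply, Finset.sum_mul]
      refine Finset.sum_congr rfl fun w _ => ?_
      rw [Measure.smul_apply, Measure.smul_apply, Measure.map_apply (by fun_prop)
        (measurableSet_cyl _ p), Measure.map_apply (by fun_prop) (measurableSet_cyl _ p)]
      by_cases h : p 0 = v
      · have : ∀ m, cons v ⁻¹' cyl (m + 1) p = cyl m (fun k => p (k + 1)) := by
          intro m
          ext X
          simp only [Set.mem_preimage, cyl, Set.mem_ofPred_eq]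
          constructor
          · intro h' k hk
            exact h' (k + 1) (by omega)
          · intro h' k hk
            cases k with
            | zero => exact h.symm
            | succ k => exact h' k (by omega)
        rw [this, this, srw_cyl_succ, smul_eq_mul, smul_eq_mul, mul_assoc]
      · have : ∀ m, cons v ⁻¹' cyl m p = ∅ := by
          intro m
          ext X
          simp only [Set.mem_preimage, cyl, Set.mem_ofPred_eq, Set.mem_empty_iff_false,
            iff_false]
          intro h'
          exact h (h' 0 (by omega)).symm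
        rw [this, this]
        simp

lemma measurableEmbedding_cons (v : V) : MeasurableEmbedding (cons v) where
  injective := by
    intro X Y h
    funext n
    exact congrFun h (n + 1)
  measurable := measurable_cons v
  measurableSet_image' := by
    intro S hS
    have : cons v '' S = (fun X : ℕ → V => X 0) ⁻¹' {v} ∩
        (fun (X : ℕ → V) (n : ℕ) => X (n + 1)) ⁻¹' S := by
      ext X
      simp only [Set.mem_image, Set.mem_inter_iff, Set.mem_preimage, Set.mem_singleton_iff]
      constructor
      · rintro ⟨Y, hY, rfl⟩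
        exact ⟨rfl, hY⟩
      · rintro ⟨h0, hX⟩
        refine ⟨_, hX, ?_⟩
        funext n
        cases n with
        | zero => exact h0.symm
        | succ n => rfl
    rw [this]
    refine ((measurable_pi_apply 0) (measurableSet_singleton v)).inter ?_
    exact (measurable_pi_lambda _ fun n => measurable_pi_apply (n + 1)) hS

/-- A finite-set description of the neighbourhoods. -/
structure IsNb (G : SimpleGraph V) (nb : V → Finset V) : Prop where
  coe : ∀ v, (nb v : Set V) = G.neighborSet v
  ne : ∀ v, (nb v).Nonempty

section nb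

variable {G : SimpleGraph V} {nb : V → Finset V} (hnb : IsNb G nb)
include hnb

lemma IsNb.card_ne (v : V) : ((nb v).card : ℝ) ≠ 0 := by
  have := hnb.ne v
  simpa using this.ne_empty

lemma ae_srw_iff (v : V) (E : (ℕ → V) → Prop) :
    (∀ᵐ X ∂srw G v, E X) ↔ ∀ w ∈ nb v, ∀ᵐ X ∂srw G w, E (cons v X) := by
  rw [srw_eq_sum G v (nb v) (hnb.coe v) (hnb.ne v)]
  simp only [ae_iff, Measure.finsetSum_apply, Measure.smul_apply, smul_eq_mul]
  rw [Finset.sum_eq_zero_iff]
  refine forall₂_congr fun w _ => ?_
  rw [(measurableEmbedding_cons v).map_apply]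
  rw [mul_eq_zero]
  constructor
  · rintro (h | h)
    · simp at h
    · exact h
  · intro h
    exact Or.inr h

lemma real_srw (v : V) {A : Set (ℕ → V)} :
    (srw G v).real A = ((nb v).card : ℝ)⁻¹ * ∑ w ∈ nb v, (srw G w).real (cons v ⁻¹' A) := by
  rw [measureReal_def, srw_eq_sum G v (nb v) (hnb.coe v) (hnb.ne v), Measure.finsetSum_apply,
    ENNReal.toReal_sum (by
      intro w _
      rw [Measure.smul_apply, smul_eq_mul]
      have h1 := hnb.card_ne v
      refine ENNReal.mul_ne_top ?_ (measure_ne_top _ _)
      rw [Ne, ENNReal.inv_eq_top]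
      exact_mod_cast h1), Finset.mul_sum]
  refine Finset.sum_congr rfl fun w _ => ?_
  rw [Measure.smul_apply, (measurableEmbedding_cons v).map_apply, smul_eq_mul,
    ENNReal.toReal_mul, ENNReal.toReal_inv]
  rfl

lemma ae_zero (v : V) : ∀ᵐ X ∂srw G v, X 0 = v := by
  rw [ae_srw_iff hnb]
  intro w _
  exact Eventually.of_forall fun X => rfl

lemma ae_shift {E : (ℕ → V) → Prop} (h : ∀ v, ∀ᵐ X ∂srw G v, E X) (v : V) (m : ℕ) :
    ∀ᵐ X ∂srw G v, E (fun k => X (m + k)) := by
  induction m generalizing v with
  | zero =>
    simp only [Nat.zero_add]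
    exact h v
  | succ m ih =>
    rw [ae_srw_iff hnb]
    intro w _
    filter_upwards [ih w] with X hX
    have : (fun k => cons v X (m + 1 + k)) = fun k => X (m + k) := by
      funext k
      rw [show m + 1 + k = (m + k) + 1 by omega]
      rfl
    rw [this]
    exact hX

lemma ae_adj (v : V) : ∀ᵐ X ∂srw G v, ∀ n, G.Adj (X n) (X (n + 1)) := by
  rw [ae_all_iff]
  have key : ∀ v, ∀ᵐ X ∂srw G v, G.Adj (X 0) (X 1) := by
    intro v
    rw [ae_srw_iff hnb]
    intro w hw
    filter_upwards [ae_zero hnb w] with X hX
    have : w ∈ (nb v : Set V) := hw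
    rw [hnb.coe v] at this
    change G.Adj v (X 0)
    rw [hX]
    exact this
  intro n
  filter_upwards [ae_shift hnb key v n] with X hX
  exact hX

/-- Superharmonic criterion for transience at `o`. -/
lemma ae_finite_visits (o : V) (F : V → ℝ) (hF0 : ∀ v, 0 ≤ F v)
    (hF : ∀ v, {x | x = o}.indicator (fun _ => (1 : ℝ)) v +
      ((nb v).card : ℝ)⁻¹ * ∑ w ∈ nb v, F w ≤ F v) (v : V) :
    ∀ᵐ X ∂srw G v, ∀ᶠ n in atTop, X n ≠ o := by
  have hsum : ∀ N v, ∑ n ∈ Finset.range N, (srw G v).real {X | X n = o} ≤ F v := by
    intro N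
    induction N with
    | zero => intro v; simpa using hF0 v
    | succ N ih =>
      intro v
      rw [Finset.sum_range_succ']
      have h0 : (srw G v).real {X | X 0 = o} ≤ {x | x = o}.indicator (fun _ => (1 : ℝ)) v := by
        by_cases h : v = o
        · rw [Set.indicator_of_mem (by simpa using h)]
          exact measureReal_le_one
        · rw [Set.indicator_of_notMem (by simpa using h)]
          have : ∀ᵐ X ∂srw G v, ¬ (X 0 = o) := by
            filter_upwards [ae_zero hnb v] with X hX hX'
            exact h (hX.symm.trans hX')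
          rw [ae_iff] at this
          simp only [not_not] at this
          rw [measureReal_def, this]
          simp
      have h1 : ∑ n ∈ Finset.range N, (srw G v).real {X | X (n + 1) = o} ≤
          ((nb v).card : ℝ)⁻¹ * ∑ w ∈ nb v, F w := by
        have : ∀ n ∈ Finset.range N, (srw G v).real {X | X (n + 1) = o}
            = ((nb v).card : ℝ)⁻¹ * ∑ w ∈ nb v, (srw G w).real {X | X n = o} := by
          intro n _
          rw [real_srw hnb]
          rfl
        rw [Finset.sum_congr rfl this, ← Finset.mul_sum, Finset.sum_comm]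
        gcongr with w _
        exact ih w
      linarith [hF v]
  have hfin : ∑' n, srw G v {X | X n = o} ≠ ⊤ := by
    have h1 : ∀ n, srw G v {X | X n = o} = ENNReal.ofReal ((srw G v).real {X | X n = o}) := by
      intro n
      rw [ofReal_measureReal]
    simp_rw [h1]
    have hs : Summable fun n => (srw G v).real {X | X n = o} :=
      summable_of_sum_range_le (fun n => measureReal_nonneg) (fun N => hsum N v)
    rw [← ENNReal.ofReal_tsum_of_nonneg (fun n => measureReal_nonneg) hs]
    exact ENNReal.ofReal_ne_top
  have := ae_eventually_notMem hfin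
  filter_upwards [this] with X hX
  exact hX

/-- Exponential decay along a set on which a function contracts. -/
lemma contraction_bound (S : Set V) (h : V → ℝ) (ρ : ℝ) (hρ : 0 ≤ ρ) (h0 : ∀ v, 0 ≤ h v)
    (hh : ∀ v ∈ S, ((nb v).card : ℝ)⁻¹ * ∑ w ∈ nb v, S.indicator h w ≤ ρ * h v) (a : ℝ)
    (ha : 0 < a) (n : ℕ) :
    ∀ v ∈ S, (srw G v).real {X | (∀ k ≤ n, X k ∈ S) ∧ a ≤ h (X n)} ≤ ρ ^ n * h v / a := by
  have hnot : ∀ n, ∀ v ∉ S, (srw G v).real {X | (∀ k ≤ n, X k ∈ S) ∧ a ≤ h (X n)} = 0 := by
    intro n v hv
    have : ∀ᵐ X ∂srw G v, ¬ ((∀ k ≤ n, X k ∈ S) ∧ a ≤ h (X n)) := by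
      filter_upwards [ae_zero hnb v] with X hX hX'
      have := hX'.1 0 (Nat.zero_le _)
      rw [hX] at this
      exact hv this
    rw [ae_iff] at this
    simp only [not_not] at this
    rw [measureReal_def, this]
    simp
  induction n with
  | zero =>
    intro v hv
    by_cases hva : a ≤ h v
    · refine measureReal_le_one.trans ?_
      rw [pow_zero, one_mul, le_div_iff₀ ha]
      linarith
    · have : ∀ᵐ X ∂srw G v, ¬ ((∀ k ≤ 0, X k ∈ S) ∧ a ≤ h (X 0)) := by
        filter_upwards [ae_zero hnb v] with X hX hX'
        rw [hX] at hX'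
        exact hva hX'.2
      rw [ae_iff] at this
      simp only [not_not] at this
      rw [measureReal_def, this]
      simp only [ENNReal.toReal_zero]
      have := h0 v
      positivity
  | succ n ih =>
    intro v hv
    rw [real_srw hnb]
    have h1 : ∀ w ∈ nb v, (srw G w).real
        (cons v ⁻¹' {X | (∀ k ≤ n + 1, X k ∈ S) ∧ a ≤ h (X (n + 1))}) ≤
        ρ ^ n / a * S.indicator h w := by
      intro w _
      have hsub : (cons v ⁻¹' {X | (∀ k ≤ n + 1, X k ∈ S) ∧ a ≤ h (X (n + 1))}) ⊆
          {X | (∀ k ≤ n, X k ∈ S) ∧ a ≤ h (X n)} := by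
        intro X hX
        exact ⟨fun k hk => hX.1 (k + 1) (by omega), hX.2⟩
      refine (measureReal_mono hsub (measure_ne_top _ _)).trans ?_
      by_cases hw : w ∈ S
      · rw [Set.indicator_of_mem hw]
        refine (ih w hw).trans (le_of_eq ?_)
        ring
      · rw [Set.indicator_of_notMem hw, hnot n w hw]
        simp
    calc ((nb v).card : ℝ)⁻¹ * ∑ w ∈ nb v, (srw G w).real
          (cons v ⁻¹' {X | (∀ k ≤ n + 1, X k ∈ S) ∧ a ≤ h (X (n + 1))})
        ≤ ((nb v).card : ℝ)⁻¹ * ∑ w ∈ nb v, ρ ^ n / a * S.indicator h w := by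
          gcongr with w hw
          exact h1 w hw
      _ = ρ ^ n / a * (((nb v).card : ℝ)⁻¹ * ∑ w ∈ nb v, S.indicator h w) := by
          rw [← Finset.mul_sum]; ring
      _ ≤ ρ ^ n / a * (ρ * h v) :=
          mul_le_mul_of_nonneg_left (hh v hv) (by positivity)
      _ = ρ ^ (n + 1) * h v / a := by ring

end nb

end Pool.Agent.Lib.MP_32e6ae_pr
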